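import Pool.Agent.Lib.MP_ce5ee5_co.Braid

open Pool.Agent.Lib.MP_ce5ee5_co

theorem Pool.Agent.Lib.MP_ce5ee5_co.Old.braidStructure_v1 (k : ℕ) (V : Type) [Finite V]
    (F : SimpleGraph V) :
    InF k F ↔
      (∃ x y, x ≠ y ∧ ¬ F.Adj x y ∧ IsBraid F (k + 1) x y) ∧
      ∀ u w, u ≠ w → ¬ F.Adj u w → IsBraid F (k + 1) u w ∨ SepLE F k u w := by
  classical
  have := Fintype.ofFinite V
  constructor
  · rintro ⟨h1, h2⟩
    have key : ∀ u w, u ≠ w → ¬ F.Adj u w → ¬ SepLE F k u w → IsBraid F (k + 1) u w := by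
      intro u w huw hn h
      refine braid_of_critical huw hn h fun v hu hw => ?_
      obtain ⟨S, hS, hu', hw', hp⟩ := h2 {v}ᶜ (by simp) ⟨u, hu.symm⟩ ⟨w, hw.symm⟩
        (by simpa using huw) (by simpa using hn)
      refine ⟨insert v (S.map (Function.Embedding.subtype _)),
        (Finset.card_insert_le _ _).trans (by simpa using hS), by simp, ?_, ?_, fun p => ?_⟩
      · simp [hu.symm, hu']
      · simp [hw.symm, hw']
      by_cases hv : v ∈ p.support
      · exact ⟨v, hv, by simp⟩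
      obtain ⟨a, ha, haS⟩ := hp (p.induce {v}ᶜ fun a ha (h : a = v) => hv (h ▸ ha))
      refine ⟨a, ?_, Finset.mem_insert_of_mem (Finset.mem_map_of_mem _ haS)⟩
      rw [SimpleGraph.Walk.support_induce] at ha
      simpa using ha
    refine ⟨?_, fun u w huw hn => ?_⟩
    · simp only [InG, not_forall] at h1
      obtain ⟨x, y, hxy, hn, h⟩ := h1
      exact ⟨x, y, hxy, hn, key x y hxy hn h⟩
    · by_cases h : SepLE F k u w
      · exact Or.inr h
      · exact Or.inl (key u w huw hn h)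
  · rintro ⟨⟨x, y, hxy, hn, hb⟩, h2⟩
    refine ⟨fun h => hb.not_sepLE (h x y hxy hn), fun A hA u w huw hn' => ?_⟩
    have huw' : (u : V) ≠ w := fun h => huw (Subtype.ext h)
    obtain ⟨S, hS, hu, hw, hp⟩ : ∃ S : Finset V, (S.filter (· ∈ A)).card ≤ k ∧ u.1 ∉ S ∧ w.1 ∉ S ∧
        ∀ p : F.Walk u w, ∃ v ∈ p.support, v ∈ S := by
      rcases h2 u w huw' hn' with h | ⟨S, hS, h⟩
      · obtain ⟨v, hv⟩ := (Set.ne_univ_iff_exists_notMem A).1 hA
        obtain ⟨S, hS, hvS, h⟩ := h.cut huw' hn' v (fun h => hv (h ▸ u.2)) (fun h => hv (h ▸ w.2))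
        refine ⟨S, ?_, h⟩
        have := Finset.card_lt_card (Finset.filter_ssubset.2 ⟨v, hvS, hv⟩ :
          S.filter (· ∈ A) ⊂ S)
        omega
      · exact ⟨S, (Finset.card_filter_le _ _).trans hS, h⟩
    refine ⟨S.subtype (· ∈ A), by simpa using hS, by simpa using hu, by simpa using hw, fun p => ?_⟩
    obtain ⟨v, hv, hvS⟩ := hp (p.map (SimpleGraph.Embedding.induce A).toHom)
    obtain ⟨a, ha, rfl⟩ := List.mem_map.1
      ((SimpleGraph.Walk.support_map (SimpleGraph.Embedding.induce A).toHom p) ▸ hv)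
    exact ⟨a, ha, by simpa using hvS⟩
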